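import Mathlib
import Pool.Agent.H212R2.KLS.T1

open MeasureTheory Set
open scoped ENNReal

namespace Pool.Agent.Y368.CB

/-- Log-concavity in multiplicative form. -/
def LogC {F : Type*} [AddCommGroup F] [Module ℝ F] (f : F → ℝ≥0∞) : Prop :=
  ∀ t : ℝ, 0 < t → t < 1 → ∀ x y, f x ^ (1 - t) * f y ^ t ≤ f ((1 - t) • x + t • y)

/-- An even log-concave function on the line with values in `[0, 1]` and integral at most one. -/
structure Dens (f : ℝ → ℝ≥0∞) : Prop where
  meas : Measurable f
  even : ∀ r, f (-r) = f r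
  logc : LogC f
  le_one : ∀ r, f r ≤ 1
  mass : ∫⁻ r, f r ≤ 1

/-- The indicator of the interval `[-1/2, 1/2]`. -/
noncomputable def ind (r : ℝ) : ℝ≥0∞ := (Icc (-(1 / 2) : ℝ) (1 / 2)).indicator 1 r

theorem ind_of_mem {r : ℝ} (h : |r| ≤ 1 / 2) : ind r = 1 := by
  unfold ind
  rw [indicator_of_mem (mem_Icc.2 (abs_le.1 h))]
  rfl

theorem ind_of_not {r : ℝ} (h : ¬ |r| ≤ 1 / 2) : ind r = 0 := by
  unfold ind
  rw [indicator_of_notMem fun h' => h (abs_le.2 (mem_Icc.1 h'))]

theorem ind_dens : Dens ind := by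
  refine ⟨measurable_const.indicator measurableSet_Icc, fun r => ?_, ?_, fun r => ?_, ?_⟩
  · by_cases h : |r| ≤ 1 / 2
    · rw [ind_of_mem h, ind_of_mem (by rwa [abs_neg])]
    · rw [ind_of_not h, ind_of_not (by rwa [abs_neg])]
  · intro t ht0 ht1 x y
    by_cases hx : |x| ≤ 1 / 2
    · by_cases hy : |y| ≤ 1 / 2
      · have h : |(1 - t) • x + t • y| ≤ 1 / 2 := by
          rw [smul_eq_mul, smul_eq_mul]
          have h1 := abs_le.1 hx
          have h2 := abs_le.1 hy
          rw [abs_le]
          constructor <;> nlinarith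
        rw [ind_of_mem hx, ind_of_mem hy, ind_of_mem h, ENNReal.one_rpow, ENNReal.one_rpow,
          one_mul]
      · rw [ind_of_not hy, ENNReal.zero_rpow_of_pos ht0, mul_zero]
        exact zero_le
    · rw [ind_of_not hx, ENNReal.zero_rpow_of_pos (by linarith), zero_mul]
      exact zero_le
  · by_cases h : |r| ≤ 1 / 2
    · rw [ind_of_mem h]
    · rw [ind_of_not h]; exact zero_le
  · show ∫⁻ r, (Icc (-(1 / 2) : ℝ) (1 / 2)).indicator 1 r ≤ 1
    rw [lintegral_indicator_one measurableSet_Icc, Real.volume_Icc]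
    norm_num

theorem LogC.mul {F : Type*} [AddCommGroup F] [Module ℝ F] {f g : F → ℝ≥0∞} (hf : LogC f)
    (hg : LogC g) : LogC fun x => f x * g x := by
  intro t ht0 ht1 x y
  rw [ENNReal.mul_rpow_of_nonneg _ _ (by linarith), ENNReal.mul_rpow_of_nonneg _ _ ht0.le]
  calc f x ^ (1 - t) * g x ^ (1 - t) * (f y ^ t * g y ^ t)
      = (f x ^ (1 - t) * f y ^ t) * (g x ^ (1 - t) * g y ^ t) := by ring
    _ ≤ _ := mul_le_mul' (hf t ht0 ht1 x y) (hg t ht0 ht1 x y)

theorem LogC.one {F : Type*} [AddCommGroup F] [Module ℝ F] : LogC fun _ : F => (1 : ℝ≥0∞) := by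
  intro t ht0 ht1 x y
  simp

theorem LogC.comp {F : Type*} [AddCommGroup F] [Module ℝ F] {f : ℝ → ℝ≥0∞} (hf : LogC f)
    (L : F →ₗ[ℝ] ℝ) (c : ℝ) : LogC fun x => f (L x + c) := by
  intro t ht0 ht1 x y
  refine (hf t ht0 ht1 _ _).trans (le_of_eq ?_)
  congr 1
  rw [map_add, map_smul, map_smul]
  simp only [smul_eq_mul]
  ring

theorem LogC.prod {F ι : Type*} [AddCommGroup F] [Module ℝ F] (s : Finset ι) (f : ι → F → ℝ≥0∞)
    (hf : ∀ i ∈ s, LogC (f i)) : LogC fun x => ∏ i ∈ s, f i x := by
  classical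
  induction s using Finset.induction_on with
  | empty => simpa using LogC.one
  | insert a s ha ih =>
    simp only [Finset.prod_insert ha]
    exact (hf a (Finset.mem_insert_self a s)).mul
      (ih fun i hi => hf i (Finset.mem_insert_of_mem hi))

/-- The bathtub principle. -/
theorem bathtub (f A : ℝ → ℝ≥0∞) (a : ℝ≥0∞) (hf : Measurable f)
    (hf1 : ∀ r, f r ≤ 1) (hm : ∫⁻ r, f r ≤ 1) (hA : Measurable A)
    (hin : ∀ r, |r| ≤ 1 / 2 → a ≤ A r)
    (hout : ∀ r, ¬ |r| ≤ 1 / 2 → A r ≤ a) : ∫⁻ r, f r * A r ≤ ∫⁻ r, ind r * A r := by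
  set I : Set ℝ := Icc (-(1 / 2) : ℝ) (1 / 2) with hI
  have hIm : MeasurableSet I := measurableSet_Icc
  have hmem : ∀ r, r ∈ I ↔ |r| ≤ 1 / 2 := fun r => by rw [hI, mem_Icc, abs_le]
  have h1 : ∫⁻ r in I, (f r + (1 - f r)) = 1 := by
    have : ∀ r, f r + (1 - f r) = 1 := fun r => add_tsub_cancel_of_le (hf1 r)
    simp only [this, lintegral_const, Measure.restrict_apply, MeasurableSet.univ, univ_inter,
      one_mul]
    rw [hI, Real.volume_Icc]
    norm_num
  have hfI : ∫⁻ r in I, f r ≠ ⊤ :=
    ne_top_of_le_ne_top ENNReal.one_ne_top ((setLIntegral_le_lintegral _ _).trans hm)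
  have h2 : ∫⁻ r in Iᶜ, f r ≤ ∫⁻ r in I, (1 - f r) := by
    rw [lintegral_add_left hf] at h1
    have h3 := lintegral_add_compl f hIm (μ := volume)
    have h4 : (∫⁻ r in I, f r) + ∫⁻ r in Iᶜ, f r ≤ (∫⁻ r in I, f r) + ∫⁻ r in I, (1 - f r) := by
      rw [h3, h1]
      exact hm
    exact (ENNReal.add_le_add_iff_left hfI).1 h4
  have hfA : Measurable fun r => f r * A r := hf.mul hA
  have hm1 : Measurable fun r => 1 - f r := measurable_const.sub hf
  calc ∫⁻ r, f r * A r = (∫⁻ r in I, f r * A r) + ∫⁻ r in Iᶜ, f r * A r :=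
        (lintegral_add_compl _ hIm).symm
    _ ≤ (∫⁻ r in I, f r * A r) + ∫⁻ r in Iᶜ, f r * a := by
        gcongr 1
        apply setLIntegral_mono' hIm.compl
        intro r hr
        exact mul_le_mul_right (hout r fun h => hr ((hmem r).2 h)) _
    _ = (∫⁻ r in I, f r * A r) + (∫⁻ r in Iᶜ, f r) * a := by
        rw [lintegral_mul_const _ hf]
    _ ≤ (∫⁻ r in I, f r * A r) + (∫⁻ r in I, (1 - f r)) * a := by gcongr
    _ = (∫⁻ r in I, f r * A r) + ∫⁻ r in I, (1 - f r) * a := by
        rw [lintegral_mul_const _ hm1]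
    _ ≤ (∫⁻ r in I, f r * A r) + ∫⁻ r in I, (1 - f r) * A r := by
        gcongr 1
        apply setLIntegral_mono' hIm
        intro r hr
        exact mul_le_mul_right (hin r ((hmem r).1 hr)) _
    _ = ∫⁻ r in I, (f r * A r + (1 - f r) * A r) := (lintegral_add_left hfA _).symm
    _ = ∫⁻ r in I, A r := by
        apply setLIntegral_congr_fun hIm
        intro r _
        show f r * A r + (1 - f r) * A r = A r
        rw [← add_mul, add_tsub_cancel_of_le (hf1 r), one_mul]
    _ = ∫⁻ r, ind r * A r := by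
        rw [← lintegral_indicator hIm]
        apply lintegral_congr
        intro r
        by_cases h : r ∈ I
        · rw [indicator_of_mem h, ind_of_mem ((hmem r).1 h), one_mul]
        · rw [indicator_of_notMem h, ind_of_not (fun h' => h ((hmem r).2 h')), zero_mul]

/-- The splitting of a space along a functional. -/
noncomputable def split {F : Type*} [AddCommGroup F] [Module ℝ F] (L : F →ₗ[ℝ] ℝ) (e : F)
    (he : L e = 1) : (LinearMap.ker L × ℝ) ≃ₗ[ℝ] F where
  toFun p := (p.1 : F) + p.2 • e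
  map_add' p q := by
    simp only [Prod.fst_add, Prod.snd_add, Submodule.coe_add, add_smul]
    abel
  map_smul' c p := by
    simp only [Prod.smul_fst, Prod.smul_snd, Submodule.coe_smul, RingHom.id_apply, smul_add,
      smul_eq_mul, mul_smul]
  invFun x := (⟨x - L x • e, by
    rw [LinearMap.mem_ker, map_sub, map_smul, he, smul_eq_mul, mul_one, sub_self]⟩, L x)
  left_inv p := by
    have h1 : L ((p.1 : F) + p.2 • e) = p.2 := by
      rw [map_add, map_smul, he, LinearMap.mem_ker.1 p.1.2, zero_add, smul_eq_mul, mul_one]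
    apply Prod.ext
    · apply Subtype.ext
      show (p.1 : F) + p.2 • e - L ((p.1 : F) + p.2 • e) • e = p.1
      rw [h1, add_sub_cancel_right]
    · exact h1
  right_inv x := by
    show (x - L x • e) + L x • e = x
    rw [sub_add_cancel]

section

variable {F : Type*} [NormedAddCommGroup F] [NormedSpace ℝ F] [FiniteDimensional ℝ F]
  [MeasurableSpace F] [BorelSpace F] (μ : Measure F) [μ.IsAddHaarMeasure]

/-- Disintegration along a functional. -/
theorem disint (L : F →ₗ[ℝ] ℝ) (e : F) (he : L e = 1) :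
    ∃ c : ℝ≥0∞, ∀ G : F → ℝ≥0∞, Measurable G → ∫⁻ x, G x ∂μ =
      c * ∫⁻ t : ℝ, ∫⁻ w : LinearMap.ker L, G (w + t • e) ∂Measure.addHaar := by
  let Φ : (LinearMap.ker L × ℝ) ≃L[ℝ] F := (split L e he).toContinuousLinearEquiv
  let κ : Measure (LinearMap.ker L × ℝ) := (Measure.addHaar : Measure (LinearMap.ker L)).prod volume
  have hm : (Measure.map Φ κ).IsAddHaarMeasure := Φ.isAddHaarMeasure_map κ
  have hc := Measure.isAddLeftInvariant_eq_smul μ (Measure.map Φ κ)
  refine ⟨(Measure.addHaarScalarFactor μ (Measure.map Φ κ) : ℝ≥0∞), fun G hG => ?_⟩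
  conv_lhs => rw [hc]
  rw [lintegral_smul_measure, lintegral_map hG Φ.continuous.measurable]
  show _ * _ = _
  congr 1
  have hGΦ : Measurable fun p : LinearMap.ker L × ℝ => G (Φ p) :=
    hG.comp Φ.continuous.measurable
  show ∫⁻ p, G (Φ p) ∂((Measure.addHaar : Measure (LinearMap.ker L)).prod volume) = _
  rw [lintegral_prod_symm _ hGΦ.aemeasurable]
  rfl

/-- One step: replace one profile by the indicator of the interval. -/
theorem step (L : F →ₗ[ℝ] ℝ) (f : ℝ → ℝ≥0∞) (hf : Measurable f) (hf1 : ∀ r, f r ≤ 1)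
    (hm : ∫⁻ r, f r ≤ 1) (G : F → ℝ≥0∞) (hG : Measurable G) (hGe : ∀ x, G (-x) = G x)
    (hGl : LogC G) : ∫⁻ x, f (L x) * G x ∂μ ≤ ∫⁻ x, ind (L x) * G x ∂μ := by
  have hLm : Measurable L := (LinearMap.continuous_of_finiteDimensional L).measurable
  by_cases hL : L = 0
  · apply lintegral_mono
    intro x
    show f (L x) * G x ≤ ind (L x) * G x
    rw [hL, LinearMap.zero_apply, ind_of_mem (by norm_num)]
    exact mul_le_mul_left (hf1 0) _
  obtain ⟨e0, he0⟩ : ∃ e0, L e0 ≠ 0 := by
    by_contra h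
    push Not at h
    exact hL (LinearMap.ext h)
  set e : F := (L e0)⁻¹ • e0 with he
  have he1 : L e = 1 := by rw [he, map_smul, smul_eq_mul, inv_mul_cancel₀ he0]
  obtain ⟨c, hc⟩ := disint μ L e he1
  set A : ℝ → ℝ≥0∞ := fun t => ∫⁻ w : LinearMap.ker L, G (w + t • e) ∂Measure.addHaar with hA
  have hLw : ∀ (w : LinearMap.ker L) (t : ℝ), L (w + t • e) = t := by
    intro w t
    rw [map_add, map_smul, he1, LinearMap.mem_ker.1 w.2, zero_add, smul_eq_mul, mul_one]
  have hcont : Continuous fun p : ℝ × LinearMap.ker L => (p.2 : F) + p.1 • e := by fun_prop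
  have hAm : Measurable A := by
    have : Measurable fun p : ℝ × LinearMap.ker L => G ((p.2 : F) + p.1 • e) :=
      hG.comp hcont.measurable
    exact this.lintegral_prod_right'
  have hGt : ∀ t : ℝ, Measurable fun w : LinearMap.ker L => G (w + t • e) := fun t =>
    hG.comp (by fun_prop : Continuous fun w : LinearMap.ker L => (w : F) + t • e).measurable
  have hred : ∀ φ : ℝ → ℝ≥0∞, Measurable φ → ∫⁻ x, φ (L x) * G x ∂μ = c * ∫⁻ t, φ t * A t := by
    intro φ hφ
    have hm2 : Measurable fun x => φ (L x) * G x := (hφ.comp hLm).mul hG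
    rw [hc _ hm2]
    congr 1
    apply lintegral_congr
    intro t
    simp only [hLw]
    rw [lintegral_const_mul _ (hGt t)]
  have hAe : ∀ t, A (-t) = A t := by
    intro t
    simp only [hA]
    rw [← lintegral_neg_eq_self]
    apply lintegral_congr
    intro w
    rw [← hGe]
    congr 1
    simp only [Submodule.coe_neg, neg_smul]
    abel
  have huni : ∀ s t : ℝ, |s| ≤ |t| → A t ≤ A s := by
    intro s t hst
    by_cases ht : t = 0
    · rw [ht, abs_zero] at hst
      rw [ht, abs_eq_zero.1 (le_antisymm hst (abs_nonneg s))]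
    have ht2 : 0 < |t| := abs_pos.2 ht
    by_cases h1 : s = t
    · rw [h1]
    by_cases h2 : s = -t
    · rw [h2, hAe]
    set θ : ℝ := (t - s) / (2 * t) with hθ
    have hθs : (1 - θ) * t + θ * (-t) = s := by
      rw [hθ]
      field_simp
      ring
    have hst' : |s / t| ≤ 1 := by
      rw [abs_div]
      exact (div_le_one ht2).2 hst
    have hθe : θ = (1 - s / t) / 2 := by
      rw [hθ]
      field_simp
    have h3 : s / t ≠ 1 := fun h => h1 (by rwa [div_eq_one_iff_eq ht] at h)
    have h4 : s / t ≠ -1 := fun h => h2 (by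
      rw [div_eq_iff ht] at h
      linarith)
    have h5 := abs_le.1 hst'
    have hθ0 : 0 < θ := by
      rw [hθe]
      have : s / t < 1 := lt_of_le_of_ne h5.2 h3
      linarith
    have hθ1 : θ < 1 := by
      rw [hθe]
      have : -1 < s / t := lt_of_le_of_ne h5.1 (Ne.symm h4)
      linarith
    have hPL := Pool.Agent.H212R2.KLS.PL (Measure.addHaar : Measure (LinearMap.ker L)) θ hθ0 hθ1
      (fun w => G (w + t • e)) (fun w => G (w + (-t) • e)) (fun w => G (w + s • e))
      (hGt t) (hGt (-t)) (hGt s) (fun x y => by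
        refine (hGl θ hθ0 hθ1 _ _).trans (le_of_eq ?_)
        congr 1
        rw [← hθs]
        simp only [Submodule.coe_add, Submodule.coe_smul, smul_add, add_smul, mul_smul]
        abel)
    have h6 : A t ^ (1 - θ) * A (-t) ^ θ ≤ A s := hPL
    rw [hAe, ← ENNReal.rpow_add_of_nonneg _ _ (by linarith) hθ0.le, sub_add_cancel,
      ENNReal.rpow_one] at h6
    exact h6
  rw [hred f hf, hred ind ind_dens.meas]
  refine mul_le_mul_right ?_ _
  refine bathtub f A (A (1 / 2)) hf hf1 hm hAm (fun r hr => huni _ _ ?_) (fun r hr => huni _ _ ?_)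
  · rwa [abs_of_pos (by norm_num : (0 : ℝ) < 1 / 2)]
  · rw [abs_of_pos (by norm_num : (0 : ℝ) < 1 / 2)]
    exact (not_le.1 hr).le

/-- The comparison for products of profiles. -/
theorem compare {n : ℕ} (L : Fin n → F →ₗ[ℝ] ℝ) (f : Fin n → ℝ → ℝ≥0∞) (hf : ∀ i, Dens (f i))
    (c : Fin n → ℝ) :
    ∫⁻ x, ∏ i, f i (L i x + c i) ∂μ ≤ ∫⁻ x, ∏ i, ind (L i x) ∂μ := by
  classical
  have hLm : ∀ i, Measurable (L i) := fun i =>
    (LinearMap.continuous_of_finiteDimensional (L i)).measurable
  -- centring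
  have hcen : ∫⁻ x, ∏ i, f i (L i x + c i) ∂μ ≤ ∫⁻ x, ∏ i, f i (L i x) ∂μ := by
    have hmeas : ∀ c' : Fin n → ℝ, Measurable fun x => ∏ i, f i (L i x + c' i) := fun c' =>
      Finset.measurable_prod _ fun i _ => (hf i).meas.comp ((hLm i).add_const _)
    have hPL := Pool.Agent.H212R2.KLS.PL μ (1 / 2) (by norm_num) (by norm_num)
      (fun x => ∏ i, f i (L i x + c i)) (fun x => ∏ i, f i (L i x + -c i))
      (fun x => ∏ i, f i (L i x)) (hmeas c) (hmeas fun i => -c i)
      (by simpa using hmeas fun _ => 0) (fun x y => by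
        rw [← ENNReal.prod_rpow_of_nonneg (by norm_num), ← ENNReal.prod_rpow_of_nonneg (by norm_num),
          ← Finset.prod_mul_distrib]
        apply Finset.prod_le_prod'
        intro i _
        refine ((hf i).logc (1 / 2) (by norm_num) (by norm_num) _ _).trans (le_of_eq ?_)
        congr 1
        rw [map_add, map_smul, map_smul]
        simp only [smul_eq_mul]
        ring)
    have hsym : ∫⁻ x, ∏ i, f i (L i x + -c i) ∂μ = ∫⁻ x, ∏ i, f i (L i x + c i) ∂μ := by
      rw [← lintegral_neg_eq_self]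
      apply lintegral_congr
      intro x
      apply Finset.prod_congr rfl
      intro i _
      rw [← (hf i).even]
      congr 1
      rw [map_neg]
      ring
    rw [hsym, ← ENNReal.rpow_add_of_nonneg _ _ (by norm_num) (by norm_num)] at hPL
    norm_num at hPL
    exact hPL
  refine hcen.trans ?_
  have key : ∀ s : Finset (Fin n), ∫⁻ x, ∏ i, f i (L i x) ∂μ ≤
      ∫⁻ x, ∏ i, (if i ∈ s then ind else f i) (L i x) ∂μ := by
    intro s
    induction s using Finset.induction_on with
    | empty => simp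
    | insert a s ha ih =>
      refine ih.trans ?_
      set g : Fin n → ℝ → ℝ≥0∞ := fun i => if i ∈ s then ind else f i with hg
      have hgd : ∀ i, Dens (g i) := by
        intro i
        simp only [hg]
        split_ifs
        · exact ind_dens
        · exact hf i
      set G : F → ℝ≥0∞ := fun x => ∏ i ∈ Finset.univ.erase a, g i (L i x) with hG
      have hGm : Measurable G :=
        Finset.measurable_prod _ fun i _ => (hgd i).meas.comp (hLm i)
      have hGe : ∀ x, G (-x) = G x := by
        intro x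
        apply Finset.prod_congr rfl
        intro i _
        rw [map_neg, (hgd i).even]
      have hGl : LogC G := LogC.prod _ _ fun i _ => by
        have := (hgd i).logc.comp (L i) 0
        simpa using this
      have h1 := step μ (L a) (g a) (hgd a).meas (hgd a).le_one (hgd a).mass G hGm hGe hGl
      have h2 : ∀ x, ∏ i, g i (L i x) = g a (L a x) * G x := fun x =>
        (Finset.mul_prod_erase Finset.univ (fun i => g i (L i x)) (Finset.mem_univ a)).symm
      have h3 : ∀ x, ∏ i, (if i ∈ insert a s then ind else f i) (L i x) = ind (L a x) * G x := by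
        intro x
        rw [← Finset.mul_prod_erase Finset.univ
          (fun i => (if i ∈ insert a s then ind else f i) (L i x)) (Finset.mem_univ a)]
        congr 1
        · simp
        · apply Finset.prod_congr rfl
          intro i hi
          have hia : i ≠ a := Finset.ne_of_mem_erase hi
          simp only [hg, Finset.mem_insert, hia, false_or]
      calc ∫⁻ x, ∏ i, (if i ∈ s then ind else f i) (L i x) ∂μ
          = ∫⁻ x, g a (L a x) * G x ∂μ := lintegral_congr fun x => h2 x
        _ ≤ ∫⁻ x, ind (L a x) * G x ∂μ := h1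
        _ = _ := (lintegral_congr fun x => h3 x).symm
  have := key Finset.univ
  simpa using this

end

end Pool.Agent.Y368.CB
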